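import Pool.Agent.Helper9CH.KurepaKeep
import Pool.Agent.Helper9CH.KurepaTree
import Pool.Agent.Helper9CH.KHPlain
import Pool.Agent.Results.MP_47bc22_lc.KurepaCoanalytic

/-!
# It is consistent that the set of (codes of) Kurepa trees is nonempty and `Δ¹₂`

Every model of set theory has a forcing extension with a Kurepa family, and then there is a regular
Kurepa tree `R` on `ω₁`. If there is a regular Kurepa tree `R` on `ω₁`, then there is a forcing
notion which forces that `ω₁` is preserved, that Martin's axiom for `ℵ₁` dense sets holds, and that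
`R` still has more than `ℵ₁` unbounded branches, so that `R` is a regular Kurepa tree of the
extension. Under Martin's axiom for `ℵ₁` dense sets the set `𝒦` of the codes of regular Kurepa trees
is `Π¹₁`, hence `Δ¹₂`.

The forcing language is the one of `Pool.Agent.Helper669.Forcing` (in the first part the one of
`Pool.Agent.Helper292.ForceCH`, which is the same): a sentence is the set of the conditions which
force it. `MartinHolds P Om1`, `ManyBranchesHolds P R` and `KHHolds P` are the translations
into this language of `MartinFor Om1`, of `ManyBranches R` and of `PlainKH`.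
-/

set_option autoImplicit false

open Set Cardinal
open Pool.Agent.H995R3.Kurepa

namespace Pool.Agent.Results.MP_47bc22_lc.ForcedCoanalytic

open Pool.Agent.Helper9CH Pool.Agent.Helper669.Forcing Pool.Agent.W684.FM
open Pool.Agent.Results.MP_47bc22_lc.KurepaCoanalytic (like_Om mk_Om)

theorem maxCh_iff {R : Om → Om → Prop} {B : Set Om} :
    MaxCh R (fun x => x ∈ B) ↔ IsMaxChain R B := by
  constructor
  · rintro ⟨h1, h2⟩
    refine ⟨fun x hx y hy hne => (h1 x y ⟨hx, hy⟩).resolve_left hne, fun T hT hBT => ?_⟩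
    refine subset_antisymm hBT fun z hz => h2 z fun x hx => ?_
    by_cases hzx : z = x
    · exact Or.inl hzx
    · exact Or.inr (hT hz (hBT hx) hzx)
  · rintro ⟨h1, h2⟩
    refine ⟨fun x y hxy => ?_, fun z hz => ?_⟩
    · by_cases h : x = y
      · exact Or.inl h
      · exact Or.inr (h1 hxy.1 hxy.2 h)
    · have h3 : IsChain R (insert z B) := by
        refine h1.insert fun x hx hne => ?_
        exact (hz x hx).resolve_left hne
      rw [h2 h3 (subset_insert _ _)]
      exact mem_insert _ _

theorem unbounded_iff {B : Set Om} : (∀ a, ∃ b, a < b ∧ b ∈ B) ↔ ¬ B.Countable := by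
  constructor
  · intro h hc
    obtain ⟨m, hm⟩ := like_Om.bound hc
    obtain ⟨b, hb, hbB⟩ := h m
    exact absurd (hm b hbB) (not_lt.2 hb.le)
  · intro h a
    by_contra hcon
    push Not at hcon
    refine h (((like_Om.cnt a).union (countable_singleton a)).mono fun b hb => ?_)
    by_contra hba
    simp only [mem_union, mem_Iio, mem_singleton_iff, not_or, not_lt] at hba
    exact hcon b (lt_of_le_of_ne hba.1 (Ne.symm hba.2)) hb

theorem succ_aleph1 : Order.succ (ℵ₁ : Cardinal.{0}) = ℵ_ 2 := by
  rw [Cardinal.succ_aleph]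
  norm_num

/-- The plain form of `ManyBranchesHolds`: an `ℵ₁`-tree on `ω₁` is a Kurepa tree if and only if no
sequence of length `ω₁` lists all its uncountable branches. -/
theorem isKurepa_iff {R : Om → Om → Prop} :
    IsKurepa R ↔ IsAleph1Tree R ∧ ManyBranches R := by
  classical
  constructor
  · rintro ⟨h1, h2⟩
    refine ⟨h1, fun E => ?_⟩
    have h3 : ¬ uncBranches R ⊆ range fun a => {x | E a x} := by
      intro hsub
      have h4 := (mk_le_mk_of_subset hsub).trans mk_range_le
      rw [mk_ord_toType] at h4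
      have h5 := h2.trans h4
      rw [← succ_aleph1] at h5
      exact absurd h5 (not_le.2 (Order.lt_succ _))
    obtain ⟨B, hB, hE⟩ := not_subset.1 h3
    refine ⟨fun x => x ∈ B, maxCh_iff.2 hB.1, unbounded_iff.2 hB.2, fun a ha => ?_⟩
    exact hE ⟨a, by ext x; exact (ha x).symm⟩
  · rintro ⟨h1, h2⟩
    refine ⟨h1, ?_⟩
    by_contra hcon
    rw [not_le, ← succ_aleph1, Order.lt_succ_iff] at hcon
    have hle : #(uncBranches R) ≤ #Om1 := by rwa [mk_ord_toType]
    obtain ⟨f⟩ := hle
    obtain ⟨B, hB1, hB2, hB3⟩ := h2 fun a x => ∃ b : uncBranches R, f b = a ∧ x ∈ b.1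
    have hB : {x | B x} ∈ uncBranches R := ⟨maxCh_iff.1 hB1, unbounded_iff.1 hB2⟩
    refine hB3 (f ⟨_, hB⟩) fun x => ⟨fun hx => ⟨⟨_, hB⟩, rfl, hx⟩, ?_⟩
    rintro ⟨b, hb, hx⟩
    rw [f.injective hb] at hx
    exact hx

/-- Martin's axiom for partial orders from the form for preorders. -/
theorem martin_of (h : Pool.Agent.W684.MartinAxiomAleph1) : MartinAxiomAleph1 := by
  intro P _ _ hP 𝒟 h𝒟 hD
  exact h P (fun A hA => hP A hA) 𝒟 h𝒟 fun D hDm => hD D hDm

theorem family_aux (o : Ordinal.{0}) (ho : (ℵ₁ : Cardinal.{0}).ord = o)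
    (h : Pool.Agent.V11245.OmegaPerf.KurepaHypothesis.{0}) :
    ∃ 𝓑 : Set (Set o.ToType), aleph 2 ≤ #𝓑 ∧
      ∀ α : o.ToType, ((fun S => S ∩ Iio α) '' 𝓑).Countable := by
  subst ho
  exact h

theorem exists_regular (h : Pool.Agent.Helper9CH.KH.PlainKH) :
    ∃ R : Om → Om → Prop, IsKurepa R ∧ IsRegular R := by
  obtain ⟨𝓑, h1, h2⟩ := family_aux _ (Cardinal.ord_aleph 1)
    (Pool.Agent.Helper9CH.KH.plainKH_iff.1 h)
  exact Pool.Agent.Helper9CH.KurepaTree.exists_tree like_Om mk_Om h1 h2

/-- (1) Some forcing notion forces, below every condition, that `ω₁` is preserved and that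
the Kurepa hypothesis holds. (2) The Kurepa hypothesis, in the plain form of the last sentence,
implies that there is a regular Kurepa tree on `ω₁`. (3) If `R` is a regular Kurepa tree on `ω₁`,
then some notion of forcing `P` forces, below every condition, that `ω₁` is preserved, that Martin's
axiom for `ℵ₁` dense sets holds, and that for every sequence of length `ω₁` of subsets of `ω₁` there
is an unbounded maximal chain of `R` which is not in the sequence. (4) An `ℵ₁`-tree on `ω₁` is
a Kurepa tree if and only if the plain form of the last sentence holds. (5) Martin's axiom for `ℵ₁`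
dense sets implies that the set `𝒦` of the codes of regular Kurepa trees (with respect to any
bijection `e : ω₁ × ω₁ → ω₁` and any two distinct values) is `Π¹₁`, hence `Δ¹₂`, and it is nonempty
if there is a regular Kurepa tree. -/
theorem result :
    (∃ (P : Type) (_ : Preorder P), Nonempty P ∧ ∀ p : P,
      p ∈ Pool.Agent.Helper292.ForceCH.OmegaOnePreserved P ∧
      p ∈ Pool.Agent.Helper9CH.KH.KHHolds P) ∧
    (Pool.Agent.Helper9CH.KH.PlainKH → ∃ R : Om → Om → Prop, IsKurepa R ∧ IsRegular R) ∧
    (∀ R : Om → Om → Prop, IsKurepa R → IsRegular R →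
      ∃ (P : Type) (_ : Preorder P), Nonempty P ∧ ∀ p : P,
        p ∈ OmegaOnePreserved P ∧ p ∈ MartinHolds P Om1 ∧ p ∈ ManyBranchesHolds P R) ∧
    (∀ R : Om → Om → Prop, IsKurepa R ↔ IsAleph1Tree R ∧ ManyBranches R) ∧
    (MartinFor Om1 → ∀ (e : Om × Om ≃ Om) (zero one : Om), zero ≠ one →
      IsPi11 Om (kurepaCodes e zero one) ∧ IsDelta12 Om (kurepaCodes e zero one) ∧
        ((∃ R : Om → Om → Prop, IsKurepa R ∧ IsRegular R) →
          (kurepaCodes e zero one).Nonempty)) := by
  refine ⟨?_, exists_regular, fun R hR _ => ?_, fun R => isKurepa_iff,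
    fun hM e zero one h01 => ?_⟩
  · obtain ⟨P, i, h1, h2⟩ := Pool.Agent.Helper9CH.KH.exists_forcing
    exact ⟨P, i, h1, fun p => ⟨(h2 p).1, (h2 p).2.2⟩⟩
  · let W : Type := (Order.succ #Om1).ord.ToType
    have hW : Bdd Om1 W := bdd_succ Om1
    have hP : PCCC (PP Om1 W) := pccc
    refine ⟨PP Om1 W, inferInstance, ⟨⟨∅, valid_empty _⟩⟩, fun p =>
      ⟨hP.omegaOnePreserved p, martinHolds hW p, ?_⟩⟩
    refine manyBranches_ccc hP (uncBranches R) ?_ (fun S hS => maxCh_iff.2 hS.1)
      (fun S hS => unbounded_iff.2 hS.2) p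
    refine lt_of_lt_of_le ?_ hR.2
    rw [← succ_aleph1]
    exact Order.lt_succ _
  · exact KurepaCoanalytic.result (martin_of (martinFor_om1_iff.1 hM)) e zero one h01

end Pool.Agent.Results.MP_47bc22_lc.ForcedCoanalytic
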